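import Pool.Agent.Y504.CO.Stm2

/-!
# CO-ISO: hyperbolic periodic orbits are isolated
-/

set_option autoImplicit false

open scoped Manifold ContDiff Topology
open Filter Set Metric

universe u

namespace Pool.Agent.Y286.CO.ISO

open Pool.Agent.Y504.CO Pool.Agent.H718R2.G Pool.Agent.TH80.OMS

/-- a full orbit near a hyperbolic fixed point is constant -/
theorem loc {n : ℕ} (hLB : S_LB) (R : V n → V n) (a : V n) (hR : DifferentiableAt ℝ R a)
    (hRa : R a = a) (hN : NoBdd (fun _ => fderiv ℝ R a)) :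
    ∃ W ∈ 𝓝 a, ∀ y : ℤ → V n, (∀ i, y i ∈ W) → (∀ i, R (y i) = y (i + 1)) → ∀ i, y i = a := by
  obtain ⟨c, hc, N₀, h1⟩ := hLB (V n) (fun _ => fderiv ℝ R a) (fderiv ℝ R a) tendsto_const_nhds
    tendsto_const_nhds hN hN
  have h2 := h1 N₀ le_rfl ∅ (fun _ => fderiv ℝ R a) (fun _ _ => rfl)
    (fun _ s hs => absurd hs (notMem_empty s))
  have h3 := hR.hasFDerivAt.isLittleO
  rw [Asymptotics.isLittleO_iff] at h3
  have h4 := h3 (half_pos hc)
  refine ⟨_ ∩ ball a 1, inter_mem h4 (ball_mem_nhds a one_pos), fun y hy hyR => ?_⟩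
  have hbdd : BddAbove (range fun i => ‖y i - a‖) := by
    refine ⟨1, ?_⟩
    rintro _ ⟨i, rfl⟩
    have := (hy i).2
    rw [mem_ball_iff_norm] at this
    exact this.le
  set M := ⨆ i, ‖y i - a‖ with hM
  have hle : ∀ i, ‖y i - a‖ ≤ M := fun i => le_ciSup hbdd i
  have hM0 : 0 ≤ M := (norm_nonneg _).trans (hle 0)
  have h5 := h2 (fun i => y i - a) ⟨M, hle⟩ (c / 2 * M) (fun i => by
    have h6 : ‖R (y i) - R a - fderiv ℝ R a (y i - a)‖ ≤ c / 2 * ‖y i - a‖ := (hy i).1
    rw [hRa, hyR i] at h6
    exact h6.trans (mul_le_mul_of_nonneg_left (hle i) (by linarith)))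
  have h6 : M ≤ M / 2 := by
    refine ciSup_le fun i => ?_
    have := h5 i
    have h7 : c * ‖y i - a‖ ≤ c * (M / 2) := by linarith
    exact le_of_mul_le_mul_left h7 hc
  have hM1 : M = 0 := by linarith
  intro i
  have h7 := hle i
  rw [hM1] at h7
  exact sub_eq_zero.mp (norm_le_zero_iff.mp h7)

/-- topological part -/
theorem top {X : Type u} [TopologicalSpace X] [T2Space X] [CompactSpace X] (g : X → X)
    (hg : Continuous g) (hinj : Function.Injective g) (p : X) (m : ℕ) (hm : 1 ≤ m)
    (hp : g^[m] p = p) (W : Set X) (hW : W ∈ 𝓝 p)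
    (hiso : ∀ y : ℤ → X, (∀ i, y i ∈ W) → (∀ i, g^[m] (y i) = y (i + 1)) → y 0 = p) :
    Isolated g p := by
  have hper : ∀ j k : ℕ, g^[j + m * k] p = g^[j] p := by
    intro j k
    rw [Function.iterate_add_apply]
    congr 1
    rw [Function.iterate_mul]
    exact (Function.iterate_fixed hp k)
  have hfin : (orb g p).Finite := by
    have : orb g p ⊆ (fun j : ℕ => g^[j] p) '' (Finset.range m : Set ℕ) := by
      rintro _ ⟨j, rfl⟩
      refine ⟨j % m, by simpa using Nat.mod_lt j (by omega), ?_⟩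
      have h1 := hper (j % m) (j / m)
      rw [Nat.mod_add_div] at h1
      exact h1.symm
    exact (Finset.finite_toSet _ |>.image _).subset this
  have hgorb : ∀ q ∈ orb g p, g q ∈ orb g p := by
    rintro _ ⟨j, rfl⟩
    exact ⟨j + 1, Function.iterate_succ_apply' g j p⟩
  obtain ⟨U, hU, hdisj⟩ := hfin.t2_separation
  classical
  have ht : ∀ q : X, ∃ t ∈ 𝓝 q, IsClosed t ∧ t ⊆ (if q = p then U q ∩ W else U q) := by
    intro q
    refine exists_mem_nhds_isClosed_subset ?_
    split_ifs with h
    · subst h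
      exact inter_mem ((hU q).2.mem_nhds (hU q).1) hW
    · exact (hU q).2.mem_nhds (hU q).1
  choose t ht1 ht2 ht3 using ht
  have htU : ∀ q, t q ⊆ U q := by
    intro q x hx
    have := ht3 q hx
    split_ifs at this
    · exact this.1
    · exact this
  have htW : t p ⊆ W := by
    intro x hx
    have := ht3 p hx
    rw [if_pos rfl] at this
    exact this.2
  refine ⟨⋃ q ∈ orb g p, (interior (t q) ∩ g ⁻¹' interior (t (g q))), ?_, ?_, ?_⟩
  · exact isOpen_biUnion fun q _ => isOpen_interior.inter (isOpen_interior.preimage hg)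
  · intro q hq
    rw [mem_iUnion₂]
    exact ⟨q, hq, mem_interior_iff_mem_nhds.mpr (ht1 q), mem_interior_iff_mem_nhds.mpr (ht1 (g q))⟩
  · intro x hx hxO
    have hcl : closure (⋃ q ∈ orb g p, (interior (t q) ∩ g ⁻¹' interior (t (g q)))) ⊆
        ⋃ q ∈ orb g p, (t q ∩ g ⁻¹' t (g q)) := by
      refine closure_minimal ?_ (hfin.isClosed_biUnion fun q _ =>
        (ht2 q).inter ((ht2 (g q)).preimage hg))
      exact iUnion₂_mono fun q _ => inter_subset_inter interior_subset
        (preimage_mono interior_subset)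
    have hph : ∀ i, ∃ q ∈ orb g p, x i ∈ t q ∧ x (i + 1) ∈ t (g q) := by
      intro i
      have := hcl (hxO i)
      rw [mem_iUnion₂] at this
      obtain ⟨q, hq, h1, h2⟩ := this
      exact ⟨q, hq, h1, by rw [← hx i]; exact h2⟩
    choose q hq hq1 hq2 using hph
    have hqs : ∀ i, g (q i) = q (i + 1) := by
      intro i
      by_contra hne
      have h1 := hdisj (hgorb _ (hq i)) (hq (i + 1)) hne
      exact (Set.disjoint_left.mp h1) (htU _ (hq2 i)) (htU _ (hq1 (i + 1)))
    -- iterates along full orbits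
    have hit : ∀ (y : ℤ → X), (∀ i, g (y i) = y (i + 1)) → ∀ (k : ℕ) (i : ℤ),
        g^[k] (y i) = y (i + k) := by
      intro y hy k
      induction k with
      | zero => intro i; simp
      | succ k ih =>
        intro i
        rw [Function.iterate_succ_apply', ih, hy]
        congr 1
        push_cast
        ring
    obtain ⟨j, hj⟩ := hq 0
    have hqj : q (-(j : ℤ)) = p := by
      have h1 := hit q hqs j (-(j : ℤ))
      rw [neg_add_cancel, ← hj] at h1
      exact hinj.iterate j h1
    have hqall : ∀ i : ℤ, q (-(j : ℤ) + m * i) = p := by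
      have hpos : ∀ k : ℕ, q (-(j : ℤ) + m * k) = p := by
        intro k
        have h1 := hit q hqs (m * k) (-(j : ℤ))
        rw [hqj] at h1
        have h2 := hper 0 k
        rw [zero_add, Function.iterate_zero, id] at h2
        rw [h2] at h1
        rw [h1]
        push_cast
        rfl
      have hneg : ∀ k : ℕ, q (-(j : ℤ) + m * (-(k : ℤ))) = p := by
        intro k
        have h1 := hit q hqs (m * k) (-(j : ℤ) + m * (-(k : ℤ)))
        have h2 := hper 0 k
        rw [zero_add, Function.iterate_zero, id] at h2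
        have h3 : -(j : ℤ) + m * (-(k : ℤ)) + ((m * k : ℕ) : ℤ) = -(j : ℤ) := by
          push_cast; ring
        rw [h3, hqj] at h1
        exact hinj.iterate (m * k) (h1.trans h2.symm)
      intro i
      rcases le_total 0 i with h | h
      · obtain ⟨k, rfl⟩ := Int.eq_ofNat_of_zero_le h
        exact hpos k
      · obtain ⟨k, hk⟩ := Int.eq_ofNat_of_zero_le (neg_nonneg.mpr h)
        have h1 := hneg k
        have h2 : i = -(k : ℤ) := by omega
        rw [h2]
        exact h1
    have hxp := hiso (fun i => x (-(j : ℤ) + m * i)) (fun i => by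
      have h1 := hq1 (-(j : ℤ) + m * i)
      rw [hqall i] at h1
      exact htW h1) (fun i => by
      have h1 := hit x hx m (-(j : ℤ) + m * i)
      show g^[m] (x (-(j : ℤ) + m * i)) = x (-(j : ℤ) + m * (i + 1))
      rw [h1]
      congr 1
      ring)
    simp only [mul_zero, add_zero] at hxp
    have h1 := hit x hx j (-(j : ℤ))
    rw [hxp, neg_add_cancel] at h1
    exact ⟨j, h1⟩

theorem main (hLB : S_LB) : Pool.Agent.Y504.CO.S_ISO := by
  intro n N _ _ _ _ _ r hr g p hp hH
  obtain ⟨m, hm, hmp⟩ := hp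
  have hr0 : ((r : ℕ∞) : WithTop ℕ∞) ≠ 0 := by
    intro h
    have h1 : r = 0 := by exact_mod_cast h
    rw [h1] at hr
    exact absurd hr (by norm_num)
  have hmd : MDifferentiable (𝓡 n) (𝓡 n) (g^[m]) := by
    have hg := g.mdifferentiable hr0
    clear hm hmp
    induction m with
    | zero => exact mdifferentiable_id
    | succ m ih =>
      rw [Function.iterate_succ']
      exact hg.comp ih
  set ψ := chartAt (V n) p with hψ
  have hψs : p ∈ ψ.source := mem_chart_source (V n) p
  have hψm : ψ ∈ IsManifold.maximalAtlas (𝓡 n) ∞ N := IsManifold.chart_mem_maximalAtlas p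
  have hyp := hH m hm hmp ψ hψm hψs
  have hdiff : DifferentiableAt ℝ (fun v => ψ (g^[m] (ψ.symm v))) (ψ p) := by
    have h1 := (hmd p).differentiableWithinAt_writtenInExtChartAt
    rw [writtenInExtChartAt, hmp] at h1
    simp only [ModelWithCorners.range_eq_univ, differentiableWithinAt_univ] at h1
    exact h1
  have hRa : (fun v => ψ (g^[m] (ψ.symm v))) (ψ p) = ψ p := by
    show ψ (g^[m] (ψ.symm (ψ p))) = ψ p
    rw [ψ.left_inv hψs, hmp]
  obtain ⟨W, hW, hloc⟩ := loc hLB _ (ψ p) hdiff hRa hyp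
  refine top g g.continuous g.injective p m hm hmp (ψ.source ∩ ψ ⁻¹' W)
    (inter_mem (ψ.open_source.mem_nhds hψs) ((ψ.continuousAt hψs).preimage_mem_nhds hW)) ?_
  intro y hy hyg
  have h1 := hloc (fun i => ψ (y i)) (fun i => (hy i).2) (fun i => by
    show ψ (g^[m] (ψ.symm (ψ (y i)))) = ψ (y (i + 1))
    rw [ψ.left_inv (hy i).1, hyg i]) 0
  have h2 := congrArg ψ.symm h1
  rwa [ψ.left_inv (hy 0).1, ψ.left_inv hψs] at h2

end Pool.Agent.Y286.CO.ISO
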